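import Pool.Agent.PinR.Final

set_option autoImplicit false

/-!
# Pinned distance ratios in planar compact sets of nearly full dimension

There is one threshold `s0 < 2` such that every compact set `E` in the plane with Hausdorff
dimension above `s0` contains a pinned ratio configuration with ratio `r`, for every real `r > 0`.
-/

namespace Pool.Agent.Results.MP_16a8ab_an.NearFullPlane

open MeasureTheory

/-- One `s0 < 2` such that for every compact `E ⊆ ℝ²` with `dim_H E > s0` and every `r > 0` there are
`x, y, z ∈ E` with `x ≠ y` and `|x - z| = r |x - y|`. -/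
theorem result : ∃ s0 : ℝ, 0 < s0 ∧ s0 < 2 ∧
    ∀ E : Set (EuclideanSpace ℝ (Fin 2)), IsCompact E → ENNReal.ofReal s0 < dimH E →
      ∀ r : ℝ, 0 < r → ∃ x ∈ E, ∃ y ∈ E, ∃ z ∈ E, x ≠ y ∧ dist x z = r * dist x y :=
  PinR.main_E

end Pool.Agent.Results.MP_16a8ab_an.NearFullPlane
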